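import Pool.Agent.Q8.GF.Fin9

/-!
Artinian complete intersections of arbitrary degrees: all maps `ℓ ^ k : A_i → A_{i+k}` from degree
at most one, or to degree at least `σ - 1`, have maximal rank. No condition up to height five; in
height at least six, for each `k`, a condition on the degrees or few low powers of linear forms in
the ideal.
-/

open MvPolynomial

namespace Pool.Agent.Results.MP_3924db_ag.FromDegreeOne

/-- Let `K` be a field of characteristic zero and `A = K[x_0, …, x_{n+1}] / (f_0, …, f_{n+1})` an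
Artinian complete intersection in `n + 2` variables, with `f_0, …, f_{n+1}` a regular sequence of
forms of degrees `2 ≤ d_0 ≤ … ≤ d_{n+1}`, and let `σ = ∑ (d_j - 1)` be its socle degree and
`e = d_n - 1` (`d_n` is the second largest degree). Assume that for each `1 ≤ k ≤ n - 1` one of the
following holds.

* `k e ≤ (d_0 - 1) + … + (d_k - 1)`.
* The linear forms `z` with `z ^ (k e) ∈ (f_0, …, f_{n+1})` span a space of dimension at most
  `k + 1`.
* `k = n - 1` and `n (d_{n-1} - 1) + (d_1 - 1) ≤ σ`.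
* `n ≤ 3` (at most five variables).

Then there is a linear form `ℓ` such that all maps `ℓ ^ k : A_i → A_{i+k}` with `i ≤ 1` or
`i + k ≥ σ - 1` are injective or surjective. -/
theorem result (K : Type*) [Field K] [CharZero K] (n : ℕ)
    (f : Fin (n + 2) → MvPolynomial (Fin (n + 2)) K) (d : Fin (n + 2) → ℕ)
    (hf : ∀ i, (f i).IsHomogeneous (d i)) (hd : ∀ i, 2 ≤ d i) (hmono : Monotone d)
    (hreg : RingTheory.Sequence.IsRegular (MvPolynomial (Fin (n + 2)) K) (List.ofFn f))
    (h : ∀ k (_ : 1 ≤ k) (_ : k + 1 ≤ n),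
      k * (d (Fin.last n).castSucc - 1) ≤
        ∑ i ∈ Finset.univ.filter (fun i : Fin (n + 2) => (i : ℕ) ≤ k), (d i - 1) ∨
      Module.finrank K (Submodule.span K {z : Fin (n + 2) → K |
        (∑ j, z j • X j : MvPolynomial (Fin (n + 2)) K) ^ (k * (d (Fin.last n).castSucc - 1)) ∈
          Ideal.span (Set.range f)}) ≤ k + 1 ∨
      (k + 1 = n ∧ n * (d ⟨k, by omega⟩ - 1) + (d 1 - 1) ≤ ∑ j, (d j - 1)) ∨ n ≤ 3) :
    ∃ ℓ : MvPolynomial (Fin (n + 2)) K, ℓ.IsHomogeneous 1 ∧ ∀ i k : ℕ,
      (i ≤ 1 ∨ ∑ j, (d j - 1) ≤ i + k + 1) →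
        (∀ g ∈ homogeneousSubmodule (Fin (n + 2)) K i,
          ℓ ^ k * g ∈ Ideal.span (Set.range f) → g ∈ Ideal.span (Set.range f)) ∨
        (∀ h ∈ homogeneousSubmodule (Fin (n + 2)) K (i + k),
          ∃ g ∈ homogeneousSubmodule (Fin (n + 2)) K i,
            h - ℓ ^ k * g ∈ Ideal.span (Set.range f)) :=
  Pool.Agent.Q8.GF.main9 hf hd (H503R3.QCI.reg_of_isWeaklyRegular hreg.toIsWeaklyRegular) hmono h

end Pool.Agent.Results.MP_3924db_ag.FromDegreeOne
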