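import Pool.Agent.Q8.GF.FinM

/-!
Artinian complete intersections with one large degree: the maps `ℓ ^ k : A_i → A_{i+k}` between the
middle degrees, and those from degree at most one.
-/

open MvPolynomial

namespace Pool.Agent.Results.MP_3924db_ag.OneLargeDegree

/-- Let `K` be a field of characteristic zero and `A = K[x_0, …, x_{n+1}] / (f_0, …, f_{n+1})` an
Artinian complete intersection in `n + 2` variables, with `f_0, …, f_{n+1}` a regular sequence of
forms of degrees `2 ≤ d_0 ≤ … ≤ d_{n+1}`. Let `σ = ∑ (d_j - 1)` be its socle degree, let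
`r = (d_0 - 1) + … + (d_n - 1)` and `e = d_n - 1`, and assume that `r ≤ d_{n+1} + 1`. Then there is
a linear form `ℓ` such that the map `ℓ ^ k : A_i → A_{i+k}` is injective or surjective in the
following cases.

* `r ≤ 4` (so `A` has the strong Lefschetz property in this case).
* `r - 1 ≤ i` and `i + k ≤ d_{n+1}`.
* `i ≤ 1` or `i + k ≥ σ - 1` or (`r - 2 ≤ i` and `i + k ≤ d_{n+1} + 1`), if `n ≤ 2` (so at most four
  variables) or for each `1 ≤ m ≤ n - 1` either `m e ≤ (d_0 - 1) + … + (d_m - 1)` or the linear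
  forms `z` with `z ^ (m e) ∈ (f_0, …, f_{n+1})` span a space of dimension at most `m + 1`. -/
theorem result (K : Type*) [Field K] [CharZero K] (n : ℕ)
    (f : Fin (n + 2) → MvPolynomial (Fin (n + 2)) K) (d : Fin (n + 2) → ℕ)
    (hf : ∀ i, (f i).IsHomogeneous (d i)) (hd : ∀ i, 2 ≤ d i) (hmono : Monotone d)
    (hreg : RingTheory.Sequence.IsRegular (MvPolynomial (Fin (n + 2)) K) (List.ofFn f))
    (hr : ∑ j : Fin (n + 1), (d j.castSucc - 1) ≤ d (Fin.last (n + 1)) + 1) :
    ∃ ℓ : MvPolynomial (Fin (n + 2)) K, ℓ.IsHomogeneous 1 ∧ ∀ i k : ℕ,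
      (∑ j : Fin (n + 1), (d j.castSucc - 1) ≤ 4 ∨
        (∑ j : Fin (n + 1), (d j.castSucc - 1) ≤ i + 1 ∧ i + k ≤ d (Fin.last (n + 1))) ∨
        ((i ≤ 1 ∨ ∑ j, (d j - 1) ≤ i + k + 1 ∨
          (∑ j : Fin (n + 1), (d j.castSucc - 1) ≤ i + 2 ∧
            i + k ≤ d (Fin.last (n + 1)) + 1)) ∧
        (n ≤ 2 ∨ ∀ m, 1 ≤ m → m + 1 ≤ n →
          m * (d (Fin.last n).castSucc - 1) ≤
            ∑ i ∈ Finset.univ.filter (fun i : Fin (n + 2) => (i : ℕ) ≤ m), (d i - 1) ∨
          Module.finrank K (Submodule.span K {z : Fin (n + 2) → K |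
            (∑ j, z j • X j : MvPolynomial (Fin (n + 2)) K) ^
              (m * (d (Fin.last n).castSucc - 1)) ∈ Ideal.span (Set.range f)}) ≤ m + 1))) →
        (∀ g ∈ homogeneousSubmodule (Fin (n + 2)) K i,
          ℓ ^ k * g ∈ Ideal.span (Set.range f) → g ∈ Ideal.span (Set.range f)) ∨
        (∀ h ∈ homogeneousSubmodule (Fin (n + 2)) K (i + k),
          ∃ g ∈ homogeneousSubmodule (Fin (n + 2)) K i,
            h - ℓ ^ k * g ∈ Ideal.span (Set.range f)) :=
  Pool.Agent.Q8.GF.mainM hf hd (H503R3.QCI.reg_of_isWeaklyRegular hreg.toIsWeaklyRegular) hmono hr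

end Pool.Agent.Results.MP_3924db_ag.OneLargeDegree
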